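import Pool.Agent.H45OST.Fin

set_option autoImplicit false

/-!
# The records of `S_n(2ξ)` are `ξ`-Ostrowski automatic for every quadratic irrational `ξ`

Put `S_n(x) = ∑_{j=1}^n (-1)^⌊j x⌋`. For every quadratic irrational `ξ > 0` the set of records of
`(S_n(2ξ))` is recognised by a deterministic finite automaton that reads the `ξ`-Ostrowski
representation.

Idea of the proof. The summand is `h(jξ)` with `h` of period one and `h = 1` on `[0, 1/2)` and
`h = -1` on `[1/2, 1)`. A number with digits `b_0, b_1, ...` is split into steps of the lengths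
`q_n, q_{n-1}` for every `n`. A bounded part of the data of the low digits (the Birkhoff sums over
`q_n` and `q_{n-1}` steps, their dependence on the starting point at the scale
`|q_n ξ - p_n|`, and their maxima up to a bounded amount below the largest) decides which higher
digits can be written in front so that the result is a record. By Denjoy and Koksma the relevant
quantities are bounded, and there are finitely many complete quotients. So the language of the
representations of records, read from the least significant digit, has finitely many left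
quotients, and Myhill and Nerode apply. Regular languages are closed under reversal.
-/

namespace Pool.Agent.Results.MP_425be5_nt.RecordsAutomatic

open Finset Pool.Agent.H45OST

/-- `S_n(x) = ∑_{j=1}^n (-1)^⌊j x⌋`. -/
noncomputable def S (x : ℝ) (n : ℕ) : ℤ :=
  ∑ j ∈ Finset.Icc 1 n, (((-1 : ℤˣ) ^ ⌊(j : ℝ) * x⌋ : ℤˣ) : ℤ)

/-- `r` is a record of `(S_n(x))`: `S_r(x) ≠ S_n(x)` for every `0 ≤ n < r`. -/
def IsRecord (x : ℝ) (r : ℕ) : Prop := ∀ n < r, S x r ≠ S x n

/-- The complete quotients of `ξ`: `ξ_0 = ξ` and `ξ_{n+1} = 1 / (ξ_n - ⌊ξ_n⌋)`. -/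
noncomputable def completeQuotient (ξ : ℝ) : ℕ → ℝ
  | 0 => ξ
  | n + 1 => (Int.fract (completeQuotient ξ n))⁻¹

/-- The quotients of the continued fraction `ξ = [a_0; a_1, a_2, ...]` for `ξ > 0`: `a_n = ⌊ξ_n⌋`. -/
noncomputable def a (ξ : ℝ) (n : ℕ) : ℕ := ⌊completeQuotient ξ n⌋₊

/-- The denominators `q_0 = 1`, `q_1 = a_1`, `q_{n+2} = a_{n+2} q_{n+1} + q_n`. -/
noncomputable def q (ξ : ℝ) : ℕ → ℕ
  | 0 => 1
  | 1 => a ξ 1
  | n + 2 => a ξ (n + 2) * q ξ (n + 1) + q ξ n

/-- The digit `b_i` of a word `b_j ... b_1 b_0` written with the most significant digit first; it is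
`0` for `i > j`. -/
def digit (w : List ℕ) (i : ℕ) : ℕ := w.reverse.getD i 0

/-- The word `w = b_j ... b_1 b_0` (most significant digit first, no leading zero) is the
`ξ`-Ostrowski representation of `N`. -/
structure IsOstrowski (ξ : ℝ) (w : List ℕ) (N : ℕ) : Prop where
  no_leading_zero : w.head? ≠ some 0
  value : N = ∑ i ∈ Finset.range w.length, digit w i * q ξ i
  digit_zero_lt : digit w 0 < a ξ 1
  digit_le : ∀ i, 1 ≤ i → digit w i ≤ a ξ (i + 1)
  digit_max : ∀ i, 1 ≤ i → digit w i = a ξ (i + 1) → digit w (i - 1) = 0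

/-- The set `A` is `ξ`-Ostrowski automatic: there is a deterministic finite automaton over an
alphabet `{0, ..., B}` that contains all the digits and that accepts the `ξ`-Ostrowski
representation of `N` exactly when `N ∈ A`. -/
def IsOstrowskiAutomatic (ξ : ℝ) (A : Set ℕ) : Prop :=
  ∃ (B : ℕ) (σ : Type) (_ : Fintype σ) (M : DFA (Fin (B + 1)) σ),
    ∀ (N : ℕ) (w : List ℕ), IsOstrowski ξ w N →
      ∃ w' : List (Fin (B + 1)), w'.map Fin.val = w ∧ (w' ∈ M.accepts ↔ N ∈ A)

section proofs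

variable {ξ : ℝ}

lemma cq_eq (ξ : ℝ) : ∀ n, completeQuotient ξ n = zt ξ n
  | 0 => rfl
  | n + 1 => by rw [completeQuotient, zt, cq_eq]

lemma a_eq (ξ : ℝ) (n : ℕ) : a ξ n = aa ξ n := by rw [a, aa, cq_eq]

lemma q_eq (ξ : ℝ) : ∀ n, q ξ n = qq ξ (n + 1) ∧ q ξ (n + 1) = qq ξ (n + 2)
  | 0 => by
    constructor
    · rfl
    · rw [q, qq, a_eq]; simp [qq]
  | n + 1 => by
    obtain ⟨h1, h2⟩ := q_eq ξ n
    refine ⟨h2, ?_⟩
    have e : qq ξ (n + 1 + 2) = aa ξ (n + 2) * qq ξ (n + 2) + qq ξ (n + 1) := rfl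
    rw [e, show n + 1 + 1 = n + 2 from rfl, q, h1, h2, a_eq]

lemma unit_eq (k : ℤ) : (((-1 : ℤˣ) ^ k : ℤˣ) : ℤ) = sg k := by
  unfold sg
  rcases Int.even_or_odd k with h | h
  · rw [if_pos h]
    have := Int.negOnePow_even k h
    rw [Int.negOnePow_def] at this
    rw [this]; rfl
  · rw [if_neg (Int.not_even_iff_odd.2 h)]
    have := Int.negOnePow_odd k h
    rw [Int.negOnePow_def] at this
    rw [this]; rfl

lemma S_eq (ξ : ℝ) : ∀ n : ℕ, S (2 * ξ) n = T ξ n 0
  | 0 => by simp [S, T]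
  | n + 1 => by
    have h1 : S (2 * ξ) (n + 1)
        = S (2 * ξ) n + (((-1 : ℤˣ) ^ ⌊((n + 1 : ℕ) : ℝ) * (2 * ξ)⌋ : ℤˣ) : ℤ) := by
      rw [S, Finset.sum_Icc_succ_top (by omega)]; rfl
    have h2 : T ξ (n + 1) 0 = T ξ n 0 + hh (0 + (n + 1) * ξ) := by
      rw [T, T, sum_range_succ]
    rw [h1, h2, S_eq ξ n, unit_eq, hh]
    congr 3
    push_cast; ring

lemma ost_iff (h : Irrational ξ) (w : List ℕ) (N : ℕ) : IsOstrowski ξ w N ↔
    Vd (zt ξ 1) False w.reverse ∧ w.reverse.getLast? ≠ some 0 ∧ V ξ 0 w.reverse = N := by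
  have hd : ∀ i, digit w i = w.reverse.getD i 0 := fun _ => rfl
  have hV : V ξ 0 w.reverse = ∑ i ∈ Finset.range w.length, digit w i * q ξ i := by
    rw [V_sum, List.length_reverse]
    refine sum_congr rfl fun i _ => ?_
    rw [(q_eq ξ i).1, hd, zero_add]
  rw [List.getLast?_reverse, hV, Vd_iff h w.reverse 0 False]
  simp only [← hd, zero_add]
  constructor
  · rintro ⟨h1, h2, h3, h4, h5⟩
    refine ⟨⟨⟨?_, ?_⟩, ?_⟩, h1, h2.symm⟩
    · rw [a_eq] at h3; exact h3.le
    · intro he; rw [a_eq] at h3; omega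
    · intro i
      constructor
      · have := h4 (i + 1) (by omega); rw [a_eq] at this; exact this
      · intro he
        have := h5 (i + 1) (by omega) (by rw [a_eq]; exact he)
        exact this
  · rintro ⟨⟨⟨h1, h2⟩, h3⟩, h4, h5⟩
    refine ⟨h4, h5.symm, ?_, ?_, ?_⟩
    · rw [a_eq]; exact lt_of_le_of_ne h1 h2
    · intro i hi
      obtain ⟨j, rfl⟩ : ∃ j, i = j + 1 := ⟨i - 1, by omega⟩
      rw [a_eq]; exact (h3 j).1
    · intro i hi he
      obtain ⟨j, rfl⟩ : ∃ j, i = j + 1 := ⟨i - 1, by omega⟩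
      rw [a_eq] at he
      exact (h3 j).2 he

theorem exists_unique_ostrowski (h : Irrational ξ) (N : ℕ) : ∃! w, IsOstrowski ξ w N := by
  obtain ⟨l, h1, h2, h3⟩ := rep_exists' h N
  refine ⟨l.reverse, ?_, ?_⟩
  · show IsOstrowski ξ l.reverse N
    rw [ost_iff h, List.reverse_reverse]
    exact ⟨h1, h2, h3⟩
  · intro w hw
    obtain ⟨h1', h2', h3'⟩ := (ost_iff h w N).1 hw
    rw [← rep_unique h w.reverse l h1' h2' h1 h2 (h3'.trans h3.symm), List.reverse_reverse]

lemma digit_bound {B : ℕ} (hB : ∀ n, aa ξ n ≤ B) {w : List ℕ} {N : ℕ} (hw : IsOstrowski ξ w N) :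
    ∀ b ∈ w, b ≤ B := by
  intro b hb
  rw [← List.mem_reverse] at hb
  obtain ⟨i, hi, rfl⟩ := List.getElem_of_mem hb
  have hd : digit w i = w.reverse[i] := by
    rw [digit, List.getD_eq_getElem _ _ hi]
  rw [← hd]
  rcases Nat.eq_zero_or_pos i with h0 | h0
  · rw [h0]
    have := hw.digit_zero_lt
    rw [a_eq] at this
    exact this.le.trans (hB 1)
  · have := hw.digit_le i h0
    rw [a_eq] at this
    exact this.trans (hB _)

end proofs

/-- **Main result.** Let `ξ > 0` be a quadratic irrational. Every `N` has exactly one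
`ξ`-Ostrowski representation, and the set of the records of `(S_n(2ξ))_{n ≥ 0}` is `ξ`-Ostrowski
automatic. -/
theorem result (ξ : ℝ) (_hpos : 0 < ξ) (hirr : Irrational ξ)
    (hquad : ∃ A B C : ℤ, A ≠ 0 ∧ (A : ℝ) * ξ ^ 2 + B * ξ + C = 0) :
    (∀ N : ℕ, ∃! w : List ℕ, IsOstrowski ξ w N) ∧
      IsOstrowskiAutomatic ξ {r : ℕ | IsRecord (2 * ξ) r} := by
  refine ⟨exists_unique_ostrowski hirr, ?_⟩
  obtain ⟨A, B', C, hA, hq⟩ := hquad
  have hf := zt_finite hirr A B' C hA hq
  obtain ⟨B, hB⟩ := aa_bound hf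
  obtain ⟨σ, hσ, M, hM⟩ := (RecL_regular hirr hf B).reverse
  refine ⟨B, σ, hσ, M, fun N w hw => ?_⟩
  have hb := digit_bound hB hw
  have hmap : (w.map (fun b => Fin.ofNat (B + 1) b)).map Fin.val = w := by
    rw [List.map_map]
    conv_rhs => rw [← List.map_id w]
    refine List.map_congr_left fun b hbw => ?_
    have := hb b hbw
    simp only [Function.comp_apply, Fin.val_ofNat, id_eq]
    exact Nat.mod_eq_of_lt (by omega)
  refine ⟨w.map (fun b => Fin.ofNat (B + 1) b), hmap, ?_⟩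
  obtain ⟨h1, h2, h3⟩ := (ost_iff hirr w N).1 hw
  rw [hM, Language.mem_reverse]
  have hmem : ∀ u : List (Fin (B + 1)), u ∈ RecL ξ B ↔
      Vd (zt ξ 1) False (u.map Fin.val) ∧ (u.map Fin.val).getLast? ≠ some 0 ∧
      ∀ n < V ξ 0 (u.map Fin.val), T ξ (V ξ 0 (u.map Fin.val)) 0 ≠ T ξ n 0 := fun _ => Iff.rfl
  rw [hmem, List.map_reverse, hmap, h3]
  simp only [Set.mem_setOf_eq, IsRecord, S_eq]
  constructor
  · rintro ⟨-, -, h⟩; exact h
  · intro h; exact ⟨h1, h2, h⟩

end Pool.Agent.Results.MP_425be5_nt.RecordsAutomatic
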